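import Pool.Agent.N942.ATv

/-!
# The de Almeida-Thouless line: the high temperature region is exactly the dA-T region

For every `β > 0` and `h`, let `q` be the largest solution in `[0,1]` of
`q = E tanh²(β z √(2q) + h)`. Then the Parisi measure is concentrated on one point if and only if
`β² E cosh⁻⁴(β z √(2q) + h) ≤ 1/2`, and in that case it is the point mass at `q` (uniquely).
-/

set_option autoImplicit false

open MeasureTheory ProbabilityTheory Set Pool.Agent.N942.AT

namespace Pool.Agent.Results.MP_aa848e_pr.ATLine

theorem result (β h : ℝ) (hβ : 0 < β) :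
    ∃ q, IsGreatest (fixedSet β h) q ∧
      ((∃ r, IsParisiMeasure β h (Measure.dirac r)) ↔ ATcond β h q) ∧
      (ATcond β h q → ∀ μ, IsParisiMeasure β h μ ↔ μ = Measure.dirac q) :=
  main β h hβ

end Pool.Agent.Results.MP_aa848e_pr.ATLine
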